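import Pool.Agent.Q262.CycloVariety

set_option autoImplicit false

namespace Pool.Agent.Results.MP_086516_nt.TorusPoint

open Q262.CycloVar

/-- Every cyclovariety `C_k`, `k ≥ 1`, has a point on the unit torus. -/
theorem result : ∀ k : ℕ, 1 ≤ k → (cyclovariety k ∩ unitTorus k).Nonempty := by
  intro k hk
  obtain ⟨x, hx1, hx⟩ := exists_norm_one hk
  refine ⟨(-F k x, x), ⟨?_, ?_, ?_⟩, ?_, hx1⟩
  · show -F k x ≠ 0
    rw [← norm_ne_zero_iff, norm_neg, hx]
    exact one_ne_zero
  · intro j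
    show x j ≠ 0
    rw [← norm_ne_zero_iff, hx1 j]
    exact one_ne_zero
  · show -F k x + F k x = 0
    exact neg_add_cancel _
  · show ‖-F k x‖ = 1
    rw [norm_neg, hx]

end Pool.Agent.Results.MP_086516_nt.TorusPoint
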